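import Pool.Agent.MP_161a40_an.H4.Main

/-!
The map of `H4.Main` is open, and the obstruction to approximation does not depend on the domain.
-/

set_option autoImplicit false

open Complex Metric Set Filter
open scoped Real Topology

namespace Pool.Agent.MP_161a40_an.H93

open Pool.Agent.MP_161a40_an.H4

lemma deriv_UU_ne {s : ℂ} (hs : ‖s‖ < 1 / 2) : deriv UU s ≠ 0 := by
  have h1 : HasDerivAt sg (-(1 / 2000) * (-(bb : ℂ) / (1 - bb * s))) s := by
    have : HasDerivAt (fun s : ℂ => 1 - (bb : ℂ) * s) (-(bb : ℂ)) s := by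
      simpa using ((hasDerivAt_id s).const_mul (bb : ℂ)).const_sub 1
    exact (this.clog (slit hs)).const_mul _
  have h2 := ((((h1.const_mul I).cexp).const_mul (13 / 12)).add_const (5 / 12)).pow 2
  have h3 : UU =ᶠ[𝓝 s] fun s => (13 / 12 * exp (I * sg s) + 5 / 12) ^ 2 := by
    filter_upwards [isOpen_ball.mem_nhds (mem_ball_zero_iff.2 hs)] with s hs
    exact UU_eq (mem_ball_zero_iff.1 hs)
  have hb : (bb : ℂ) ≠ 0 := by exact_mod_cast bb_pos.ne'
  have h4 : 13 / 12 * exp (I * sg s) + 5 / 12 ≠ 0 := by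
    rw [← exp_th (sg_im hs)]
    exact exp_ne_zero _
  have h5 : 1 - (bb : ℂ) * s ≠ 0 := slitPlane_ne_zero (slit hs)
  rw [(h2.congr_of_eventuallyEq h3).deriv]
  refine mul_ne_zero (mul_ne_zero (by norm_num) (pow_ne_zero _ h4)) ?_
  refine mul_ne_zero (by norm_num) (mul_ne_zero (exp_ne_zero _) (mul_ne_zero I_ne_zero ?_))
  exact mul_ne_zero (by norm_num) (div_ne_zero (neg_ne_zero.2 hb) h5)

lemma analyticAt_F2 {p : ℂ × ℂ} (hp : ‖p.1 * p.2‖ < 1 / 2) : AnalyticAt ℂ F2 p := by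
  have hm : ball (0 : ℂ) (1 / 2) ∈ 𝓝 (p.1 * p.2) := isOpen_ball.mem_nhds (mem_ball_zero_iff.2 hp)
  have hA : AnalyticAt ℂ AA (p.1 * p.2) := DifferentiableOn.analyticAt
    (fun x hx => (differentiableAt_AA (mem_ball_zero_iff.1 hx)).differentiableWithinAt) hm
  have hB : AnalyticAt ℂ BB (p.1 * p.2) := DifferentiableOn.analyticAt
    (fun x hx => (differentiableAt_BB (mem_ball_zero_iff.1 hx)).differentiableWithinAt) hm
  have h : AnalyticAt ℂ (fun p : ℂ × ℂ => p.1 * p.2) p := analyticAt_fst.mul analyticAt_snd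
  exact (analyticAt_fst.mul (AnalyticAt.comp (f := fun p : ℂ × ℂ => p.1 * p.2) hA h)).prod
    (analyticAt_snd.mul (AnalyticAt.comp (f := fun p : ℂ × ℂ => p.1 * p.2) hB h))

lemma fderiv_F2_inj {p : ℂ × ℂ} (hp : ‖p.1 * p.2‖ < 1 / 2) (v : ℂ × ℂ)
    (hv : fderiv ℂ F2 p v = 0) : v = 0 := by
  have hl : HasDerivAt (fun t : ℂ => p + t • v) v 0 := by
    simpa using ((hasDerivAt_id (0 : ℂ)).smul_const v).const_add p
  have hF : HasDerivAt (fun t : ℂ => F2 (p + t • v)) 0 0 := by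
    have h1 : HasFDerivAt F2 (fderiv ℂ F2 p) (p + (0 : ℂ) • v) := by
      simpa using (differentiableAt_F2 hp).hasFDerivAt
    have := h1.comp_hasDerivAt (0 : ℂ) hl
    rwa [hv] at this
  have l1 : HasDerivAt (fun t : ℂ => (p + t • v).1) v.1 0 := by
    simpa using ((hasDerivAt_id (0 : ℂ)).mul_const v.1).const_add p.1
  have l2 : HasDerivAt (fun t : ℂ => (p + t • v).2) v.2 0 := by
    simpa using ((hasDerivAt_id (0 : ℂ)).mul_const v.2).const_add p.2
  have ls : HasDerivAt (fun t : ℂ => (p + t • v).1 * (p + t • v).2) (v.1 * p.2 + p.1 * v.2) 0 := by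
    simpa using l1.fun_mul l2
  have comp : ∀ φ : ℂ → ℂ, DifferentiableAt ℂ φ (p.1 * p.2) →
      HasDerivAt (fun t : ℂ => φ ((p + t • v).1 * (p + t • v).2))
        (deriv φ (p.1 * p.2) * (v.1 * p.2 + p.1 * v.2)) 0 := by
    intro φ hφ
    have h1 : HasDerivAt φ (deriv φ (p.1 * p.2)) ((p + (0 : ℂ) • v).1 * (p + (0 : ℂ) • v).2) := by
      simpa using hφ.hasDerivAt
    exact HasDerivAt.comp (h := fun t : ℂ => (p + t • v).1 * (p + t • v).2) (0 : ℂ) h1 ls
  have f1 : HasDerivAt (fun t : ℂ => (F2 (p + t • v)).1) 0 0 :=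
    (ContinuousLinearMap.fst ℂ ℂ ℂ).hasFDerivAt.comp_hasDerivAt (0 : ℂ) hF
  have f2 : HasDerivAt (fun t : ℂ => (F2 (p + t • v)).2) 0 0 :=
    (ContinuousLinearMap.snd ℂ ℂ ℂ).hasFDerivAt.comp_hasDerivAt (0 : ℂ) hF
  have u1 : HasDerivAt (fun t : ℂ => UU ((p + t • v).1 * (p + t • v).2)) 0 0 := by
    have := ((f1.fun_mul f2).const_mul c0).add_const (UU 0)
    simp only [zero_mul, mul_zero, add_zero] at this
    refine this.congr_of_eventuallyEq (Eventually.of_forall fun t => ?_)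
    simp only [F2]
    rw [← UU_formula ((p + t • v).1 * (p + t • v).2)]
    ring
  have hs0 : v.1 * p.2 + p.1 * v.2 = 0 :=
    (mul_eq_zero.1 ((comp UU (differentiableAt_UU hp)).unique u1)).resolve_left (deriv_UU_ne hp)
  have e1 := (l1.fun_mul (comp AA (differentiableAt_AA hp))).unique f1
  have e2 := (l2.fun_mul (comp BB (differentiableAt_BB hp))).unique f2
  simp only [hs0, mul_zero, add_zero, zero_smul] at e1 e2
  have v1 : v.1 = 0 := (mul_eq_zero.1 e1).resolve_right (AA_ne _)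
  rw [v1, zero_mul, zero_add] at hs0
  have v2 : v.2 = 0 := by
    rcases mul_eq_zero.1 hs0 with h | h
    · rw [h, zero_mul, BB_zero, mul_one] at e2
      exact e2
    · exact h
  exact Prod.ext v1 v2

lemma map_nhds_F2 {p : ℂ × ℂ} (hp : ‖p.1 * p.2‖ < 1 / 2) : map F2 (𝓝 p) = 𝓝 (F2 p) := by
  refine (analyticAt_F2 hp).hasStrictFDerivAt.map_nhds_eq_of_surj ?_
  rw [LinearMap.range_eq_top, ← LinearMap.injective_iff_surjective, injective_iff_map_eq_zero]
  exact fderiv_F2_inj hp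

lemma isOpen_image {r : ℝ} (hr : r ≤ 1) : IsOpen (ff '' ball 0 r) := by
  rw [isOpen_iff_mem_nhds]
  rintro _ ⟨x, hx, rfl⟩
  have hx1 : ‖x‖ < 1 := (mem_ball_zero_iff.1 hx).trans_le hr
  have h1 : map ff (𝓝 x) = 𝓝 (ff x) := by
    have e : ff = La.symm ∘ F2 ∘ La := rfl
    have m1 : map La (𝓝 x) = 𝓝 (La x) := La.toHomeomorph.map_nhds_eq x
    have m2 : map La.symm (𝓝 (F2 (La x))) = 𝓝 (La.symm (F2 (La x))) :=
      La.symm.toHomeomorph.map_nhds_eq _
    rw [e, ← map_map, ← map_map, m1, map_nhds_F2 (ball_facts hx1).1, m2]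
    rfl
  rw [← h1]
  exact image_mem_map (isOpen_ball.mem_nhds hx)

theorem no_approx {Ω : Set (EuclideanSpace ℂ (Fin 2))} (hΩ : IsOpen Ω)
    (hKΩ : ff '' closedBall 0 (1 - d0 / 16) ⊆ Ω)
    {g h : EuclideanSpace ℂ (Fin 2) → EuclideanSpace ℂ (Fin 2)} (hg : Differentiable ℂ g)
    (hr : range g = Ω) (hh : DifferentiableOn ℂ h Ω) (hhg : ∀ z, h (g z) = z)
    {F G : EuclideanSpace ℂ (Fin 2) → ℂ}
    (hFe : ∀ x ∈ ball (0 : EuclideanSpace ℂ (Fin 2)) (1 - d0 / 32), F (ff x) = (La x).1)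
    (hG : DifferentiableOn ℂ G Ω)
    (hGe : ∀ z ∈ ff '' closedBall 0 (1 - d0 / 16), ‖F z - G z‖ < d0 / 512) : False := by
  have δ0 := d0_pos
  have δ1 := d0_le
  have hgΩ : ∀ z, g z ∈ Ω := fun z => hr ▸ mem_range_self z
  have hgh : ∀ y ∈ Ω, g (h y) = y := by
    intro y hy
    rw [← hr] at hy
    obtain ⟨z, rfl⟩ := hy
    rw [hhg]
  have hbb : closedBall (0 : EuclideanSpace ℂ (Fin 2)) (1 - d0 / 16) ⊆ ball 0 (1 - d0 / 32) :=
    closedBall_subset_ball (by linarith)
  have hK : IsCompact (ff '' closedBall 0 (1 - d0 / 16)) :=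
    (isCompact_closedBall _ _).image_of_continuousOn fun x hx =>
      (differentiableAt_ff (by linarith [mem_closedBall_zero_iff.1 hx])).continuousAt.continuousWithinAt
  have hΨ : Differentiable ℂ fun ζ : ℂ × ℂ => g (La.symm ζ) := hg.comp La.symm.differentiable
  have hH : Differentiable ℂ fun ζ : ℂ × ℂ => G (g (La.symm ζ)) := fun ζ =>
    (hG.differentiableAt (hΩ.mem_nhds (hgΩ _))).comp ζ (hΨ ζ)
  have hK' : IsCompact ((fun y => La (h y)) '' (ff '' closedBall 0 (1 - d0 / 16))) :=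
    hK.image_of_continuousOn (La.continuous.comp_continuousOn (hh.continuousOn.mono hKΩ))
  obtain ⟨P, D, hP, hPe⟩ := exists_fib_approx hH hK' (η := d0 / 512) (by positivity)
  have happ : ∀ z w : ℂ, ‖z‖ ^ 2 + ‖w‖ ^ 2 ≤ 1 - d0 / 8 → La.symm (F2 (z, w)) ∈ Ω ∧
      ‖P (La (h (La.symm (F2 (z, w))))) - z‖ < d0 / 256 := by
    intro z w hzw
    have h1 : La.symm (z, w) ∈ closedBall (0 : EuclideanSpace ℂ (Fin 2)) (1 - d0 / 16) := by
      rw [mem_closedBall_zero_iff]
      refine (abs_le_of_sq_le_sq' ?_ (by linarith)).2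
      rw [norm_sq_La, La.apply_symm_apply]
      nlinarith
    have h2 : ff (La.symm (z, w)) = La.symm (F2 (z, w)) := by rw [ff, La.apply_symm_apply]
    have h3 := hGe _ (mem_image_of_mem ff h1)
    have h4 := hPe _ (mem_image_of_mem _ (mem_image_of_mem ff h1))
    have h5 := hKΩ (mem_image_of_mem ff h1)
    rw [La.symm_apply_apply, hgh _ h5] at h4
    rw [hFe _ (hbb h1), La.apply_symm_apply] at h3
    rw [h2] at h3 h4 h5
    refine ⟨h5, ?_⟩
    have h6 := norm_sub_le_norm_sub_add_norm_sub z (G (La.symm (F2 (z, w))))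
      (P (La (h (La.symm (F2 (z, w))))))
    rw [norm_sub_rev]
    simp only at h3
    linarith
  set y0 := Real.sqrt (1 / 2) with hy0
  have y1 : y0 ^ 2 = 1 / 2 := Real.sq_sqrt (by norm_num)
  have y2 : 0 < y0 := Real.sqrt_pos.2 (by norm_num)
  have y3 : y0 ≤ 3 / 4 := by nlinarith
  set U : ℂ × ℂ → ℂ := fun ζ => Uy (g (La.symm ζ)) with hUd
  have hU : Differentiable ℂ U := differentiable_Uy.comp hΨ
  have hw := walls hP (O := {c | y0 + d0 / 128 < ‖c‖}) (isOpen_lt continuous_const continuous_norm)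
    hU (l := fun ζ => ‖(La (g (La.symm ζ))).1‖ ^ 2)
    (((La.continuous.comp hΨ.continuous).fst.norm).pow 2) continuous_lev
    (fun ζ hζ θ s1 s2 s3 he hl => by
      obtain ⟨s, hs, rfl⟩ := wall s1 s2 s3
      rw [lev_tt] at hl
      set z := (La (g (La.symm ζ))).1 / AA s with hz
      have hA : 0 < ‖AA s‖ := norm_pos_iff.2 (AA_ne s)
      have z1 : ‖z‖ ^ 2 = 1 / 2 := by
        rw [hz, norm_div, div_pow, hl]
        field_simp
      have z0 : z ≠ 0 := by
        intro h0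
        rw [h0] at z1
        norm_num at z1
      have z2 : ‖z‖ = y0 := by
        rw [← y1] at z1
        exact (pow_left_inj₀ (norm_nonneg _) y2.le two_ne_zero).1 z1
      have z3 : (La (g (La.symm ζ))).1 = z * AA s := by rw [hz, div_mul_cancel₀ _ (AA_ne s)]
      have z4 : F2 (z, s / z) = La (g (La.symm ζ)) := by
        have e : z * (s / z) = s := by field_simp
        refine Prod.ext (by simp only [F2, e, z3]) ?_
        simp only [F2, e]
        have k : c0 * (s * AA s * BB s) + UU 0 = Uy (g (La.symm ζ)) := (UU_formula s).trans he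
        rw [Uy, z3] at k
        have k2 := mul_left_cancel₀ c0_ne (add_right_cancel k)
        refine mul_left_cancel₀ (mul_ne_zero z0 (AA_ne s)) ?_
        rw [← k2]
        field_simp
      have z5 := (happ z (s / z) (by rw [norm_div s z, div_pow, z1]; linarith)).2
      rw [z4, La.symm_apply_apply, hhg, La.apply_symm_apply] at z5
      have z6 := norm_sub_norm_le (P ζ) z
      have z7 : y0 + d0 / 128 < ‖P ζ‖ := hζ
      linarith) nesting
  obtain ⟨θ, hQ, t1, t2⟩ := exists_base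
  have hS : Strip θ := by unfold Strip; rw [hQ]; norm_num
  obtain ⟨s, hs, rfl⟩ := wall hS t1.le (by linarith [Real.pi_pos])
  have hcurve : ∀ (c : ℂ → ℂ × ℂ) (t : ℂ), DifferentiableAt ℂ c t → La.symm (c t) ∈ Ω →
      ∃ v, HasDerivAt (fun t => La (h (La.symm (c t)))) v t ∧
        HasDerivAt (fun t => c0 * ((c t).1 * (c t).2) + UU 0)
          (fderiv ℂ U (La (h (La.symm (c t)))) v) t := by
    intro c t hc hΩt
    have k1 : DifferentiableAt ℂ (fun t => La.symm (c t)) t := La.symm.differentiableAt.comp t hc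
    have k2 : DifferentiableAt ℂ (fun t => La (h (La.symm (c t)))) t :=
      La.differentiableAt.comp t ((hh.differentiableAt (hΩ.mem_nhds hΩt)).comp t k1)
    refine ⟨_, k2.hasDerivAt, ((hU _).hasFDerivAt.comp_hasDerivAt t k2.hasDerivAt).congr_of_eventuallyEq ?_⟩
    filter_upwards [k1.continuousAt.eventually (hΩ.mem_nhds hΩt)] with u hu
    simp only [Function.comp_apply, hUd, La.symm_apply_apply, hgh _ hu, Uy, La.apply_symm_apply]
  set c : ℂ → ℂ × ℂ := fun x => (x * AA s, s / x * BB s) with hc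
  have harc : ∀ x : ℝ, x ∈ Icc (y0 + d0 / 64) (y0 + d0 / 32) → La.symm (c x) ∈ Ω ∧
      ‖P (La (h (La.symm (c x)))) - x‖ < d0 / 256 := by
    intro x hx
    have x0 : 0 < x := by linarith [hx.1]
    have x1 : (x : ℂ) ≠ 0 := by exact_mod_cast x0.ne'
    have e : F2 (x, s / x) = c x := by
      have e : (x : ℂ) * (s / x) = s := by field_simp
      simp only [F2, e, hc]
    rw [← e]
    refine happ _ _ ?_
    rw [norm_div, div_pow, Complex.norm_real, Real.norm_of_nonneg x0.le]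
    have x2 : 1 / 2 ≤ x ^ 2 := by nlinarith [hx.1]
    have x3 : x ^ 2 ≤ 1 / 2 + d0 / 8 := by nlinarith [hx.2]
    have x4 : ‖s‖ ^ 2 / x ^ 2 ≤ ‖s‖ ^ 2 / (1 / 2) :=
      div_le_div_of_nonneg_left (by positivity) (by norm_num) x2
    linarith
  have hder : ∀ x : ℝ, x ∈ Icc (y0 + d0 / 64) (y0 + d0 / 32) →
      HasDerivAt (fun x : ℝ => P (La (h (La.symm (c x))))) 0 x := by
    intro x hx
    obtain ⟨a1, a2⟩ := harc x hx
    have x0 : 0 < x := by linarith [hx.1]
    have x1 : (x : ℂ) ≠ 0 := by exact_mod_cast x0.ne'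
    have hA : 0 < ‖AA s‖ := norm_pos_iff.2 (AA_ne s)
    have a3 : La (g (La.symm (La (h (La.symm (c x)))))) = c x := by
      rw [La.symm_apply_apply, hgh _ a1, La.apply_symm_apply]
    have a4 : ‖(c x).1‖ ^ 2 = x ^ 2 * ‖AA s‖ ^ 2 := by
      simp only [hc]
      rw [norm_mul, mul_pow, Complex.norm_real, Real.norm_of_nonneg x0.le]
    have x2 : 1 / 2 < x ^ 2 := by nlinarith [hx.1]
    have x3 : x ^ 2 < 1 := by nlinarith [hx.2]
    have a5 := hw (La (h (La.symm (c x)))) (by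
        have := norm_sub_norm_le (x : ℂ) (P (La (h (La.symm (c x)))))
        rw [norm_sub_rev, Complex.norm_real, Real.norm_of_nonneg x0.le] at this
        change y0 + d0 / 128 < _
        linarith [hx.1]) (tt s) hQ t1 t2
      (by
        simp only [hUd, Uy, a3]
        simp only [hc]
        rw [show (x : ℂ) * AA s * (s / x * BB s) = s * AA s * BB s by field_simp, UU_formula, UU])
      (by rw [a3, a4, lev_tt]; nlinarith [pow_pos hA 2])
      (by
        have := lev_double hS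
        rw [lev_tt] at this
        rw [a3, a4]
        nlinarith [pow_pos hA 2])
    obtain ⟨v, v1, v2⟩ := hcurve c x (by simp only [hc]; fun_prop (disch := exact x1)) a1
    obtain ⟨w, -, w2⟩ := hcurve (fun t => ((c x).1, (c x).2 + t)) 0 (by fun_prop) (by simpa using a1)
    have v3 : fderiv ℂ U (La (h (La.symm (c x)))) v = 0 := by
      refine v2.unique ((hasDerivAt_const (x : ℂ) (c0 * (s * AA s * BB s) + UU 0)).congr_of_eventuallyEq ?_)
      filter_upwards [eventually_ne_nhds x1] with u hu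
      simp only [hc]
      field_simp
    have w3 : fderiv ℂ U (La (h (La.symm (c x)))) w ≠ 0 := by
      have k : HasDerivAt (fun t : ℂ => c0 * ((c x).1 * ((c x).2 + t)) + UU 0)
          (c0 * ((c x).1 * 1)) 0 :=
        ((((hasDerivAt_id (0 : ℂ)).const_add _).const_mul _).const_mul _).add_const _
      have k2 := w2.unique k
      simp only [add_zero, Prod.mk.eta] at k2
      rw [k2]
      exact mul_ne_zero c0_ne (mul_ne_zero (mul_ne_zero x1 (AA_ne s)) one_ne_zero)
    rw [fderiv_apply_eq] at a5 v3 w3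
    have a6 : fderiv ℂ P (La (h (La.symm (c x)))) v = 0 := by
      rw [fderiv_apply_eq]
      exact lin_alg a5 v3 w3
    have a7 := (hP.diff _).hasFDerivAt.comp_hasDerivAt (x : ℂ) v1
    rw [a6] at a7
    exact a7.comp_ofReal
  have hle : y0 + d0 / 64 ≤ y0 + d0 / 32 := by linarith
  have hconst := constant_of_has_deriv_right_zero
    (fun x hx => (hder x hx).continuousAt.continuousWithinAt)
    (fun x hx => (hder x (Ico_subset_Icc_self hx)).hasDerivWithinAt) _ (right_mem_Icc.2 hle)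
  have b1 := (harc _ (left_mem_Icc.2 hle)).2
  have b2 := (harc _ (right_mem_Icc.2 hle)).2
  rw [hconst] at b2
  have b3 := norm_sub_le_norm_sub_add_norm_sub ((y0 + d0 / 32 : ℝ) : ℂ)
    (P (La (h (La.symm (c ((y0 + d0 / 64 : ℝ) : ℂ)))))) ((y0 + d0 / 64 : ℝ) : ℂ)
  rw [norm_sub_rev ((y0 + d0 / 32 : ℝ) : ℂ) (P _), ← ofReal_sub, Complex.norm_real,
    Real.norm_of_nonneg (by linarith)] at b3
  linarith

end Pool.Agent.MP_161a40_an.H93
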